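import Mathlib

/-!
# MP_e16cda_ag, Q1

Moments up to order three do not determine complex discrete Gaussians, already for `g = 1`.
-/

namespace Pool.Agent.Results.MP_e16cda_ag.ThreeMoments

open Complex

/-- `B` is symmetric with positive definite real part. -/
def IsParam {g : ℕ} (B : Matrix (Fin g) (Fin g) ℂ) : Prop :=
  B.IsSymm ∧ (B.map Complex.re).PosDef

/-- The weight `e^{2π(nᵗu - nᵗBn/2)}`. -/
noncomputable def wt {g : ℕ} (u : Fin g → ℂ) (B : Matrix (Fin g) (Fin g) ℂ) (n : Fin g → ℤ) : ℂ :=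
  Complex.exp (2 * Real.pi *
    (∑ i, (n i : ℂ) * u i - 1 / 2 * ∑ i, ∑ j, (n i : ℂ) * B i j * (n j : ℂ)))

/-- The theta function. -/
noncomputable def theta {g : ℕ} (u : Fin g → ℂ) (B : Matrix (Fin g) (Fin g) ℂ) : ℂ :=
  ∑' n : Fin g → ℤ, wt u B n

/-- The discrete Gaussian. -/
noncomputable def dg {g : ℕ} (u : Fin g → ℂ) (B : Matrix (Fin g) (Fin g) ℂ) (n : Fin g → ℤ) : ℂ :=
  wt u B n / theta u B

/-- The moment of a multi-index. -/
noncomputable def moment {g : ℕ} (u : Fin g → ℂ) (B : Matrix (Fin g) (Fin g) ℂ)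
    (α : Fin g → ℕ) : ℂ :=
  ∑' n : Fin g → ℤ, (∏ i, (n i : ℂ) ^ α i) * dg u B n

/-- Moments up to order `d` determine discrete Gaussians in dimension `g`. -/
def Determine (g d : ℕ) : Prop :=
  ∀ (u u' : Fin g → ℂ) (B B' : Matrix (Fin g) (Fin g) ℂ), IsParam B → IsParam B' →
    theta u B ≠ 0 → theta u' B' ≠ 0 →
    (∀ α : Fin g → ℕ, ∑ i, α i ≤ d → moment u B α = moment u' B' α) → dg u B = dg u' B'

/-! ### The series in `q` -/

/-- `∑_{k ∈ ℤ} k^a q^{k²}` -/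
noncomputable def M (a : ℕ) (q : ℂ) : ℂ := ∑' k : ℤ, (k : ℂ) ^ a * q ^ (k.natAbs ^ 2)

theorem M_odd {a : ℕ} (ha : Odd a) (q : ℂ) : M a q = 0 := by
  have h : M a q = - M a q := by
    conv_lhs => rw [M, ← (Equiv.neg ℤ).tsum_eq]
    rw [M, ← tsum_neg]
    refine tsum_congr fun k => ?_
    simp [ha.neg_pow]
  have : (2 : ℂ) * M a q = 0 := by linear_combination h
  simpa using this

theorem M_conj (a : ℕ) (q : ℂ) : M a ((starRingEnd ℂ) q) = (starRingEnd ℂ) (M a q) := by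
  rw [M, M, Complex.conj_tsum]
  refine tsum_congr fun k => ?_
  simp

/-- the summand on the natural numbers -/
noncomputable def sm (a : ℕ) (q : ℂ) (n : ℕ) : ℂ := ((n : ℂ) + 1) ^ a * q ^ ((n + 1) ^ 2)

theorem summable_bound {r : ℝ} (h0 : 0 ≤ r) (h1 : r < 1) (a : ℕ) :
    Summable fun n : ℕ => ((n : ℝ) + 1) ^ a * r ^ (n + 1) := by
  have h := summable_pow_mul_geometric_of_norm_lt_one a (r := r)
    (by rw [Real.norm_eq_abs, abs_of_nonneg h0]; exact h1)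
  have h2 := (summable_nat_add_iff 1).mpr h
  refine h2.congr fun n => ?_
  push_cast
  rfl

theorem norm_sm_le {q : ℂ} {r : ℝ} (hr : r < 1) (hq : ‖q‖ ≤ r) (a n : ℕ) :
    ‖sm a q n‖ ≤ ((n : ℝ) + 1) ^ a * r ^ (n + 1) := by
  have h0 : 0 ≤ r := (norm_nonneg q).trans hq
  rw [sm, norm_mul, norm_pow, norm_pow]
  have e : ‖((n : ℂ) + 1)‖ = (n : ℝ) + 1 := by
    have : ((n : ℂ) + 1) = ((n + 1 : ℕ) : ℂ) := by push_cast; rfl
    rw [this, Complex.norm_natCast]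
    push_cast; rfl
  rw [e]
  apply mul_le_mul_of_nonneg_left _ (by positivity)
  calc ‖q‖ ^ ((n + 1) ^ 2) ≤ r ^ ((n + 1) ^ 2) := pow_le_pow_left₀ (norm_nonneg q) hq _
    _ ≤ r ^ (n + 1) := pow_le_pow_of_le_one h0 hr.le (by nlinarith)

theorem summable_sm {q : ℂ} (hq : ‖q‖ < 1) (a : ℕ) : Summable (sm a q) :=
  Summable.of_norm_bounded (summable_bound (norm_nonneg q) hq a) (norm_sm_le hq le_rfl a)

theorem h1aux (a : ℕ) {q : ℂ} (hq : ‖q‖ < 1) :
    HasSum (fun n : ℕ => (n : ℂ) ^ a * q ^ (n ^ 2)) ((0 : ℂ) ^ a + ∑' n, sm a q n) := by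
  have hs := (summable_sm hq a).hasSum
  have e : ∀ n : ℕ, ((n + 1 : ℕ) : ℂ) ^ a * q ^ ((n + 1) ^ 2) = sm a q n := by
    intro n
    rw [sm]
    push_cast
    rfl
  have h := (hasSum_nat_add_iff (f := fun n : ℕ => (n : ℂ) ^ a * q ^ (n ^ 2)) (g := ∑' n, sm a q n) 1).mp
    (by
      simp_rw [e]
      exact hs)
  rw [Finset.sum_range_one] at h
  simpa [add_comm] using h

theorem M_even {a : ℕ} (ha : Even a) {q : ℂ} (hq : ‖q‖ < 1) :
    M a q = (0 : ℂ) ^ a + 2 * ∑' n, sm a q n := by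
  have h1 : HasSum (fun n : ℕ => (((n : ℤ)) : ℂ) ^ a * q ^ ((n : ℤ).natAbs ^ 2))
      ((0 : ℂ) ^ a + ∑' n, sm a q n) := by
    simpa using h1aux a hq
  have h2 : HasSum (fun n : ℕ => (((-((n : ℤ) + 1) : ℤ)) : ℂ) ^ a *
      q ^ ((-((n : ℤ) + 1)).natAbs ^ 2)) (∑' n, sm a q n) := by
    have hs := (summable_sm hq a).hasSum
    have e : ∀ n : ℕ, (((-((n : ℤ) + 1) : ℤ)) : ℂ) ^ a *
      q ^ ((-((n : ℤ) + 1)).natAbs ^ 2) = sm a q n := by
      intro n
      have e1 : (-((n : ℤ) + 1)).natAbs = n + 1 := by omega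
      rw [e1, sm]
      congr 1
      rw [Int.cast_neg, ha.neg_pow]
      push_cast
      rfl
    simp_rw [e]
    exact hs
  have h := HasSum.of_nat_of_neg_add_one (f := fun k : ℤ => (k : ℂ) ^ a * q ^ (k.natAbs ^ 2)) h1 h2
  have : M a q = ((0 : ℂ) ^ a + ∑' n, sm a q n) + ∑' n, sm a q n := h.tsum_eq
  rw [this]
  ring

theorem four_sq_le (n : ℕ) : ((n : ℝ) + 4) ^ 2 ≤ 16 * 2 ^ n := by
  induction n with
  | zero => norm_num
  | succ n ih =>
    push_cast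
    rw [pow_succ (2 : ℝ) n]
    nlinarith [(Nat.cast_nonneg n : (0 : ℝ) ≤ n)]

theorem pow_tail {s : ℝ} (h0 : 0 ≤ s) (h : s ^ 2 ≤ 2 / 5) (n : ℕ) :
    s ^ ((n + 4) ^ 2) ≤ s ^ 16 * (1 / 4) ^ n := by
  have h1 : s ≤ 1 := by nlinarith
  have e : (n + 4) ^ 2 = 16 + (n ^ 2 + 8 * n) := by ring
  rw [e, pow_add]
  apply mul_le_mul_of_nonneg_left _ (by positivity)
  have e2 : n ^ 2 + 8 * n = 2 * n + (n ^ 2 + 6 * n) := by ring
  calc s ^ (n ^ 2 + 8 * n) ≤ s ^ (4 * n) := pow_le_pow_of_le_one h0 h1 (by nlinarith)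
    _ = (s ^ 2 * s ^ 2) ^ n := by rw [pow_mul]; ring_nf
    _ ≤ (1 / 4) ^ n := by
      apply pow_le_pow_left₀ (by positivity)
      nlinarith [sq_nonneg s]

theorem tail_bound {a : ℕ} {C : ℝ} {q : ℂ} (h : ‖q‖ ^ 2 ≤ 2 / 5)
    (hC : ∀ n : ℕ, ((n : ℝ) + 4) ^ a ≤ C * 2 ^ n) :
    ‖∑' n, sm a q n - (sm a q 0 + sm a q 1 + sm a q 2)‖ ≤ 2 * C * ‖q‖ ^ 16 := by
  have h1 : ‖q‖ < 1 := by nlinarith [norm_nonneg q]
  have hs := summable_sm h1 a
  have e : ∑' n, sm a q n - (sm a q 0 + sm a q 1 + sm a q 2) = ∑' n, sm a q (n + 3) := by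
    rw [← hs.sum_add_tsum_nat_add 3]
    simp [Finset.sum_range_succ]
  rw [e]
  have hg : HasSum (fun n : ℕ => C * ‖q‖ ^ 16 * (1 / 2 : ℝ) ^ n) (C * ‖q‖ ^ 16 * 2) := by
    exact (hasSum_geometric_two).mul_left _
  have := tsum_of_norm_bounded hg (f := fun n => sm a q (n + 3)) (fun n => by
    rw [sm, norm_mul, norm_pow, norm_pow]
    have e1 : ‖((n + 3 : ℕ) : ℂ) + 1‖ = (n : ℝ) + 4 := by
      have : (((n + 3 : ℕ) : ℂ) + 1) = ((n + 4 : ℕ) : ℂ) := by push_cast; ring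
      rw [this, Complex.norm_natCast]
      push_cast; rfl
    rw [e1, show n + 3 + 1 = n + 4 by rfl]
    have h2 := pow_tail (norm_nonneg q) h n
    calc ((n : ℝ) + 4) ^ a * ‖q‖ ^ ((n + 4) ^ 2) ≤ (C * 2 ^ n) * (‖q‖ ^ 16 * (1 / 4) ^ n) :=
          mul_le_mul (hC n) h2 (by positivity) (le_trans (by positivity) (hC n))
      _ = C * ‖q‖ ^ 16 * (2 * (1 / 4)) ^ n := by rw [mul_pow]; ring
      _ = C * ‖q‖ ^ 16 * (1 / 2) ^ n := by norm_num)
  calc ‖∑' n, sm a q (n + 3)‖ ≤ C * ‖q‖ ^ 16 * 2 := this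
    _ = _ := by ring

theorem M0_approx {q : ℂ} (h : ‖q‖ ^ 2 ≤ 2 / 5) :
    ‖M 0 q - (1 + 2 * q + 2 * q ^ 4 + 2 * q ^ 9)‖ ≤ 4 * ‖q‖ ^ 16 := by
  have h1 : ‖q‖ < 1 := by nlinarith [norm_nonneg q]
  have := tail_bound (a := 0) (C := 1) h (fun n => by
    rw [pow_zero, one_mul]; exact one_le_pow₀ (by norm_num))
  rw [M_even (by decide) h1]
  have e : (0 : ℂ) ^ 0 + 2 * ∑' n, sm 0 q n - (1 + 2 * q + 2 * q ^ 4 + 2 * q ^ 9) =
      2 * (∑' n, sm 0 q n - (sm 0 q 0 + sm 0 q 1 + sm 0 q 2)) := by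
    simp [sm]; ring
  rw [e, norm_mul]
  norm_num at this ⊢
  linarith

theorem M2_approx {q : ℂ} (h : ‖q‖ ^ 2 ≤ 2 / 5) :
    ‖M 2 q - (2 * q + 8 * q ^ 4 + 18 * q ^ 9)‖ ≤ 64 * ‖q‖ ^ 16 := by
  have h1 : ‖q‖ < 1 := by nlinarith [norm_nonneg q]
  have := tail_bound (a := 2) (C := 16) h four_sq_le
  rw [M_even (by decide) h1]
  have e : (0 : ℂ) ^ 2 + 2 * ∑' n, sm 2 q n - (2 * q + 8 * q ^ 4 + 18 * q ^ 9) =
      2 * (∑' n, sm 2 q n - (sm 2 q 0 + sm 2 q 1 + sm 2 q 2)) := by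
    simp [sm]; ring
  rw [e, norm_mul]
  norm_num at this ⊢
  linarith

theorem M_continuousOn {a : ℕ} (ha : Even a) {r : ℝ} (h0 : 0 ≤ r) (hr : r < 1) :
    ContinuousOn (M a) {q : ℂ | ‖q‖ ≤ r} := by
  have h : ContinuousOn (fun q => (0 : ℂ) ^ a + 2 * ∑' n, sm a q n) {q : ℂ | ‖q‖ ≤ r} := by
    refine continuousOn_const.add (continuousOn_const.mul ?_)
    refine continuousOn_tsum (u := fun n : ℕ => ((n : ℝ) + 1) ^ a * r ^ (n + 1)) ?_
      (summable_bound h0 hr a) ?_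
    · intro n
      unfold sm
      fun_prop
    · intro n q hq
      exact norm_sm_le hr hq a n
  refine h.congr fun q hq => ?_
  exact M_even ha (lt_of_le_of_lt hq hr)

/-- the ray through `(1+3i)/5` -/
noncomputable def ray (t : ℝ) : ℂ := ⟨t / 5, 3 * t / 5⟩

theorem ray_norm_sq (t : ℝ) : ‖ray t‖ ^ 2 = 2 * t ^ 2 / 5 := by
  rw [Complex.sq_norm, ray, Complex.normSq_mk]
  ring

theorem ray_sq (t : ℝ) : ray t ^ 2 = ⟨-8 * t ^ 2 / 25, 6 * t ^ 2 / 25⟩ := by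
  rw [pow_two]
  apply Complex.ext <;> simp [ray] <;> ring

theorem ray_4 (t : ℝ) : ray t ^ 4 = ⟨28 * t ^ 4 / 625, -96 * t ^ 4 / 625⟩ := by
  rw [show 4 = 2 + 2 by norm_num, pow_add, ray_sq]
  apply Complex.ext <;> simp <;> ring

theorem ray_9 (t : ℝ) : ray t ^ 9 = ⟨7696 * t ^ 9 / 1953125, -30672 * t ^ 9 / 1953125⟩ := by
  rw [show 9 = 4 + 4 + 1 by norm_num, pow_add, pow_add, ray_4, pow_one]
  apply Complex.ext <;> simp [ray] <;> ring

theorem ray_M0 {t : ℝ} (h0 : 0 ≤ t) (h1 : t ≤ 1) :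
    |(M 0 (ray t)).re - (1 + 2 * (t / 5) + 2 * (28 * t ^ 4 / 625) + 2 * (7696 * t ^ 9 / 1953125))|
      ≤ 4 * (2 * t ^ 2 / 5) ^ 8 ∧
    |(M 0 (ray t)).im - (2 * (3 * t / 5) + 2 * (-96 * t ^ 4 / 625) +
      2 * (-30672 * t ^ 9 / 1953125))| ≤ 4 * (2 * t ^ 2 / 5) ^ 8 := by
  have h := M0_approx (q := ray t) (by rw [ray_norm_sq]; nlinarith)
  rw [show ‖ray t‖ ^ 16 = (‖ray t‖ ^ 2) ^ 8 by rw [← pow_mul], ray_norm_sq, ray_4, ray_9] at h
  have e := (Complex.abs_re_le_norm _).trans h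
  have e' := (Complex.abs_im_le_norm _).trans h
  constructor
  · refine le_of_eq_of_le ?_ e
    congr 1
    simp [ray]
  · refine le_of_eq_of_le ?_ e'
    congr 1
    simp [ray]

theorem ray_M2 {t : ℝ} (h0 : 0 ≤ t) (h1 : t ≤ 1) :
    |(M 2 (ray t)).re - (2 * (t / 5) + 8 * (28 * t ^ 4 / 625) + 18 * (7696 * t ^ 9 / 1953125))|
      ≤ 64 * (2 * t ^ 2 / 5) ^ 8 ∧
    |(M 2 (ray t)).im - (2 * (3 * t / 5) + 8 * (-96 * t ^ 4 / 625) +
      18 * (-30672 * t ^ 9 / 1953125))| ≤ 64 * (2 * t ^ 2 / 5) ^ 8 := by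
  have h := M2_approx (q := ray t) (by rw [ray_norm_sq]; nlinarith)
  rw [show ‖ray t‖ ^ 16 = (‖ray t‖ ^ 2) ^ 8 by rw [← pow_mul], ray_norm_sq, ray_4, ray_9] at h
  have e := (Complex.abs_re_le_norm _).trans h
  have e' := (Complex.abs_im_le_norm _).trans h
  constructor
  · refine le_of_eq_of_le ?_ e
    congr 1
    simp [ray]
  · refine le_of_eq_of_le ?_ e'
    congr 1
    simp [ray]

/-- The imaginary part of `M 2 * conj (M 0)` along the ray. -/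
noncomputable def G (t : ℝ) : ℝ :=
  (M 2 (ray t)).im * (M 0 (ray t)).re - (M 2 (ray t)).re * (M 0 (ray t)).im

theorem G_one : G 1 < 0 := by
  obtain ⟨h1, h2⟩ := ray_M0 (t := 1) (by norm_num) le_rfl
  obtain ⟨h3, h4⟩ := ray_M2 (t := 1) (by norm_num) le_rfl
  rw [abs_le] at h1 h2 h3 h4
  norm_num at h1 h2 h3 h4
  unfold G
  have a1 : 1 ≤ (M 0 (ray 1)).re := by linarith
  have a2 : 0 < (M 0 (ray 1)).im := by linarith
  have a3 : 0 < (M 2 (ray 1)).re := by linarith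
  have a4 : (M 2 (ray 1)).im < 0 := by linarith
  nlinarith [mul_pos a2 a3]

theorem G_tenth : 0 < G (1 / 10) := by
  obtain ⟨h1, h2⟩ := ray_M0 (t := 1 / 10) (by norm_num) (by norm_num)
  obtain ⟨h3, h4⟩ := ray_M2 (t := 1 / 10) (by norm_num) (by norm_num)
  rw [abs_le] at h1 h2 h3 h4
  norm_num at h1 h2 h3 h4
  unfold G
  have a1 : 1 ≤ (M 0 (ray (1 / 10))).re := by norm_num; linarith
  have a2 : (M 0 (ray (1 / 10))).im ≤ 1 / 5 := by norm_num; linarith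
  have a2' : 0 ≤ (M 0 (ray (1 / 10))).im := by norm_num; linarith
  have a3 : (M 2 (ray (1 / 10))).re ≤ 1 / 5 := by norm_num; linarith
  have a3' : 0 ≤ (M 2 (ray (1 / 10))).re := by norm_num; linarith
  have a4 : 1 / 10 ≤ (M 2 (ray (1 / 10))).im := by norm_num; linarith
  nlinarith [mul_le_mul a3 a2 a2' (by norm_num : (0 : ℝ) ≤ 1 / 5)]

theorem G_cont : ContinuousOn G (Set.Icc (1 / 10) 1) := by
  have hr : Continuous ray := by
    have e : ray = fun t : ℝ => (t : ℂ) * ⟨1 / 5, 3 / 5⟩ := by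
      funext t
      apply Complex.ext <;> simp [ray] <;> ring
    rw [e]
    fun_prop
  have hn : ∀ t ∈ Set.Icc (1 / 10 : ℝ) 1, ‖ray t‖ ≤ 4 / 5 := by
    intro t ht
    have := ray_norm_sq t
    have h0 : 0 ≤ ‖ray t‖ := norm_nonneg _
    nlinarith [ht.1, ht.2]
  have h0 : ContinuousOn (fun t => M 0 (ray t)) (Set.Icc (1 / 10) 1) :=
    (M_continuousOn (by decide) (by norm_num : (0 : ℝ) ≤ 4 / 5) (by norm_num)).comp
      hr.continuousOn hn
  have h2 : ContinuousOn (fun t => M 2 (ray t)) (Set.Icc (1 / 10) 1) :=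
    (M_continuousOn (by decide) (by norm_num : (0 : ℝ) ≤ 4 / 5) (by norm_num)).comp
      hr.continuousOn hn
  exact ((Complex.continuous_im.comp_continuousOn h2).mul
    (Complex.continuous_re.comp_continuousOn h0)).sub
    ((Complex.continuous_re.comp_continuousOn h2).mul
    (Complex.continuous_im.comp_continuousOn h0))

theorem exists_q : ∃ q : ℂ, ‖q‖ < 1 ∧ 0 < q.im ∧ M 0 q ≠ 0 ∧
    M 2 q * (starRingEnd ℂ) (M 0 q) = (starRingEnd ℂ) (M 2 q) * M 0 q := by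
  obtain ⟨t, ht, h⟩ := intermediate_value_Icc' (by norm_num : (1 / 10 : ℝ) ≤ 1) G_cont
    ⟨G_one.le, G_tenth.le⟩
  refine ⟨ray t, ?_, ?_, ?_, ?_⟩
  · have := ray_norm_sq t
    have h0 : 0 ≤ ‖ray t‖ := norm_nonneg _
    nlinarith [ht.1, ht.2]
  · simp only [ray]
    linarith [ht.1]
  · intro hz
    obtain ⟨h1, -⟩ := ray_M0 (t := t) (by linarith [ht.1]) ht.2
    rw [hz, abs_le] at h1
    have h3 : (2 * t ^ 2 / 5) ^ 8 ≤ (2 / 5) ^ 8 := by
      apply pow_le_pow_left₀ (by positivity)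
      nlinarith [ht.1, ht.2]
    have h4 : 0 ≤ t := by linarith [ht.1]
    have h5 : (0 : ℝ) ≤ t ^ 4 := by positivity
    have h6 : (0 : ℝ) ≤ t ^ 9 := by positivity
    norm_num at h1 h3
    linarith [h1.1]
  · unfold G at h
    apply Complex.ext
    · simp
    · simp
      linarith

/-! ### The two discrete Gaussians -/

/-- the parameter with `e^{-π b} = q` -/
noncomputable def bOf (q : ℂ) : ℂ := -Complex.log q / Real.pi

theorem exp_bOf {q : ℂ} (hq : q ≠ 0) : Complex.exp (-(Real.pi * bOf q)) = q := by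
  have hpi : (Real.pi : ℂ) ≠ 0 := by exact_mod_cast Real.pi_ne_zero
  rw [bOf, mul_div_cancel₀ _ hpi, neg_neg, Complex.exp_log hq]

theorem bOf_re {q : ℂ} (hq : q ≠ 0) (h1 : ‖q‖ < 1) : 0 < (bOf q).re := by
  have e : (bOf q).re = -Real.log ‖q‖ / Real.pi := by
    rw [bOf, Complex.div_ofReal_re, Complex.neg_re, Complex.log_re]
  rw [e]
  have := Real.log_neg (norm_pos_iff.mpr hq) h1
  have hpi := Real.pi_pos
  exact div_pos (by linarith) hpi

/-- The `1 × 1` matrix. -/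
def mat (b : ℂ) : Matrix (Fin 1) (Fin 1) ℂ := fun _ _ => b

theorem isParam_mat {b : ℂ} (hb : 0 < b.re) : IsParam (mat b) := by
  constructor
  · ext i j
    rfl
  · have e : (mat b).map Complex.re = Matrix.diagonal fun _ => b.re := by
      ext i j
      rw [Subsingleton.elim i j]
      simp [mat]
    rw [e]
    exact Matrix.PosDef.diagonal fun _ => hb

theorem wt_mat {b q : ℂ} (h : Complex.exp (-(Real.pi * b)) = q) (n : Fin 1 → ℤ) :
    wt (fun _ => 0) (mat b) n = q ^ ((n 0).natAbs ^ 2) := by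
  rw [← h, ← Complex.exp_nat_mul, wt]
  congr 1
  have e : (((n 0).natAbs ^ 2 : ℕ) : ℂ) = (n 0 : ℂ) * (n 0 : ℂ) := by
    have h1 : (((n 0).natAbs ^ 2 : ℕ) : ℤ) = n 0 * n 0 := by
      push_cast
      rw [sq_abs, sq]
    have h2 := congrArg (Int.cast : ℤ → ℂ) h1
    rw [Int.cast_natCast, Int.cast_mul] at h2
    exact h2
  rw [e]
  simp [mat]
  ring

theorem theta_mat {b q : ℂ} (h : Complex.exp (-(Real.pi * b)) = q) :
    theta (fun _ => 0) (mat b) = M 0 q := by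
  rw [theta, M, ← (Equiv.funUnique (Fin 1) ℤ).symm.tsum_eq]
  refine tsum_congr fun k => ?_
  rw [wt_mat h]
  simp

theorem moment_mat {b q : ℂ} (h : Complex.exp (-(Real.pi * b)) = q) (α : Fin 1 → ℕ) :
    moment (fun _ => 0) (mat b) α = M (α 0) q / M 0 q := by
  rw [moment, ← (Equiv.funUnique (Fin 1) ℤ).symm.tsum_eq]
  rw [M, ← tsum_div_const]
  refine tsum_congr fun k => ?_
  rw [dg, wt_mat h, theta_mat h]
  simp [mul_div_assoc]

/-- Moments up to order three do not determine discrete Gaussians in dimension one. -/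
theorem result : ¬ Determine 1 3 := by
  intro hd
  obtain ⟨q, hq1, him, h0, hr⟩ := exists_q
  have hq0 : q ≠ 0 := by
    rintro rfl
    simp at him
  have hc0 : (starRingEnd ℂ) q ≠ 0 := by simpa using hq0
  have hc1 : ‖(starRingEnd ℂ) q‖ < 1 := by rwa [Complex.norm_conj]
  have e1 := exp_bOf hq0
  have e2 := exp_bOf hc0
  have hM0 : M 0 ((starRingEnd ℂ) q) ≠ 0 := by
    rw [M_conj]
    simpa using h0
  have key := hd (fun _ => 0) (fun _ => 0) (mat (bOf q)) (mat (bOf ((starRingEnd ℂ) q)))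
    (isParam_mat (bOf_re hq0 hq1)) (isParam_mat (bOf_re hc0 hc1))
    (by rw [theta_mat e1]; exact h0) (by rw [theta_mat e2]; exact hM0)
    (by
      intro α hα
      rw [moment_mat e1, moment_mat e2]
      have hα' : α 0 ≤ 3 := by simpa using hα
      have hM0' : (starRingEnd ℂ) (M 0 q) ≠ 0 := by simpa using h0
      have hcases : α 0 = 0 ∨ α 0 = 1 ∨ α 0 = 2 ∨ α 0 = 3 := by omega
      rcases hcases with h | h | h | h
      · rw [h, div_self h0, div_self hM0]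
      · rw [h, M_odd (a := 1) (by decide), M_odd (a := 1) (by decide)]
        simp
      · rw [h, M_conj, M_conj, div_eq_div_iff h0 hM0']
        exact hr
      · rw [h, M_odd (a := 3) (by decide), M_odd (a := 3) (by decide)]
        simp)
  have k0 := congrFun key (fun _ => 0)
  have k1 := congrFun key (fun _ => 1)
  rw [dg, dg, wt_mat e1, wt_mat e2, theta_mat e1, theta_mat e2] at k0 k1
  simp only [Int.natAbs_zero, Int.natAbs_one] at k0 k1
  norm_num at k0 k1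
  rw [k0] at k1
  have hne : M 0 ((starRingEnd ℂ) q) ≠ 0 := hM0
  have k2 : q = (starRingEnd ℂ) q := by
    rw [div_left_inj' hne] at k1
    exact k1
  have k3 := congrArg Complex.im k2
  rw [Complex.conj_im] at k3
  linarith

end Pool.Agent.Results.MP_e16cda_ag.ThreeMoments
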